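import Mathlib
import Pool.Agent.X205.JT.Spaces

/-!
Problem MP_245e03_an, Q1 (positive answer).

Every non-reflexive closed subspace `Y` of the dual `JT*` of the James tree space contains a closed
subspace isomorphic to the dual `J*` of James' quasi-reflexive space `J`.

Main steps: every functional on `JT` is, below some level of the tree and up to a small error, a
finite combination of branch functionals; an element of `Y**` outside `Y` is approximated by a
sequence in `Y` whose consecutive differences are equivalent to the biorthogonal functionals
`e_n*` of `J`; and `J*` is isomorphic to the closed span of the `e_n*`.
-/

set_option autoImplicit false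

namespace Pool.Agent.Results.MP_245e03_an.NonReflexiveContainsJStar

open Pool.Agent.X205.JT

theorem result (Y : Submodule ℝ (StrongDual ℝ JT)) (hY : IsClosed (Y : Set (StrongDual ℝ JT)))
    (hnr : ¬ IsReflexive Y) : ContainsCopy Y (StrongDual ℝ J) :=
  main' Y hY hnr

end Pool.Agent.Results.MP_245e03_an.NonReflexiveContainsJStar
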